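import Pool.Agent.H.MP_c90f74_nt.SF.Avg

/-!
# AW/Avg: averaging over the subsets of `W`

PROOF. As `SF/Avg`.
-/

set_option autoImplicit false

namespace Pool.Agent.H.MP_c90f74_nt.AW

open Finset SF

private theorem AvgW_double (J W : Finset ℕ) (r : ℕ) (f : ℕ → Finset ℕ) (hf : ∀ j ∈ J, f j ⊆ W) :
    ∑ j ∈ J, ((f j).card.choose r)
      = ∑ K ∈ powersetCard r (W), (J.filter (fun j => K ⊆ f j)).card := by
  have h := Finset.sum_card_bipartiteAbove_eq_sum_card_bipartiteBelow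
    (s := J) (t := powersetCard r (W)) (fun j K => K ⊆ f j)
  have h1 : ∀ j ∈ J, (f j).card.choose r
      = ((powersetCard r (W)).bipartiteAbove (fun j K => K ⊆ f j) j).card := by
    intro j hj
    rw [← Finset.card_powersetCard]
    congr 1
    ext K
    simp only [Finset.bipartiteAbove, Finset.mem_filter, Finset.mem_powersetCard]
    constructor
    · rintro ⟨h1, h2⟩
      exact ⟨⟨h1.trans (hf j hj), h2⟩, h1⟩
    · rintro ⟨⟨_, h2⟩, h1⟩
      exact ⟨h1, h2⟩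
  rw [Finset.sum_congr rfl h1, h]
  rfl

theorem avgW (J W : Finset ℕ) (r t : ℕ) (f : ℕ → Finset ℕ) (hf : ∀ j ∈ J, f j ⊆ W ∧ t ≤ (f j).card)
    (B ρ : ℝ) (hB0 : 0 ≤ B)
    (hB : ∀ K ⊆ W, K.card = r → ((J.filter (fun j => K ⊆ f j)).card : ℝ) ≤ B)
    (hrt : r ≤ t) (htL : t ≤ W.card) (hρ : ∀ i : ℕ, i < r → ((W.card : ℝ) - i) ≤ ρ * ((t : ℝ) - i)) (_hρ0 : 0 ≤ ρ) :
    (J.card : ℝ) ≤ B * ρ ^ r := by
  have hc := Avg_choose W.card r t ρ hrt htL hρ
  have hd := AvgW_double J W r f (fun j hj => (hf j hj).1)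
  have hpos : (0 : ℝ) < ((t.choose r : ℕ) : ℝ) := by exact_mod_cast Nat.choose_pos hrt
  have h1 : (J.card : ℝ) * ((t.choose r : ℕ) : ℝ) ≤ ((∑ j ∈ J, ((f j).card.choose r) : ℕ) : ℝ) := by
    have : J.card * t.choose r ≤ ∑ j ∈ J, ((f j).card.choose r) := by
      rw [← smul_eq_mul, ← Finset.sum_const]
      exact Finset.sum_le_sum (fun j hj => Nat.choose_le_choose r (hf j hj).2)
    exact_mod_cast this
  have h2 : ((∑ j ∈ J, ((f j).card.choose r) : ℕ) : ℝ) ≤ ((W.card.choose r : ℕ) : ℝ) * B := by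
    rw [hd, Nat.cast_sum]
    have h3 : ∀ K ∈ powersetCard r (W), ((J.filter (fun j => K ⊆ f j)).card : ℝ) ≤ B := by
      intro K hK
      rw [Finset.mem_powersetCard] at hK
      exact hB K hK.1 hK.2
    have h4 := Finset.sum_le_card_nsmul _ _ B h3
    rw [Finset.card_powersetCard, nsmul_eq_mul] at h4
    exact h4
  have h5 : ((W.card.choose r : ℕ) : ℝ) * B ≤ (ρ ^ r * ((t.choose r : ℕ) : ℝ)) * B :=
    mul_le_mul_of_nonneg_right hc hB0
  have h6 : (J.card : ℝ) * ((t.choose r : ℕ) : ℝ) ≤ (B * ρ ^ r) * ((t.choose r : ℕ) : ℝ) := by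
    calc (J.card : ℝ) * ((t.choose r : ℕ) : ℝ) ≤ (ρ ^ r * ((t.choose r : ℕ) : ℝ)) * B :=
          h1.trans (h2.trans h5)
      _ = (B * ρ ^ r) * ((t.choose r : ℕ) : ℝ) := by ring
  exact le_of_mul_le_mul_right h6 hpos

end Pool.Agent.H.MP_c90f74_nt.AW
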