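import Pool.Agent.H.MP_c90f74_nt.UW.Defs
import Pool.Agent.H.MP_c90f74_nt.MP.Defs

/-!
# AW/Defs: arithmetic progressions, proportions of a set of exponents

The primes dividing `D` are left out of the sieve and of the counting functions.
-/

set_option autoImplicit false

namespace Pool.Agent.H.MP_c90f74_nt.AW

open Finset

/-- The number of the `k ∈ W`, `2^k < n`, such that `n - 2^k` is divisible by a prime `p ≤ z` with `p < n - 2^k` which does
not divide `D`. -/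
noncomputable def smallCount (z : ℝ) (D : ℕ) (W : Finset ℕ) (n : ℕ) : ℕ :=
  {k : ℕ | k ∈ W ∧ 2 ^ k < n ∧ ∃ p : ℕ, p.Prime ∧ (p : ℝ) ≤ z ∧ ¬ p ∣ D ∧ p ∣ n - 2 ^ k ∧ p < n - 2 ^ k}.ncard

/-- The number of the `k ∈ W`, `2^k < n`, such that `n - 2^k` has at most `r` distinct prime factors `p ≤ z` which do not
divide `D`. -/
noncomputable def fewCount (z D : ℕ) (r : ℝ) (W : Finset ℕ) (n : ℕ) : ℕ :=
  {k : ℕ | k ∈ W ∧ 2 ^ k < n ∧
    ((((n - 2 ^ k).primeFactors.filter (fun p => p ≤ z ∧ ¬ p ∣ D)).card : ℕ) : ℝ) ≤ r}.ncard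

/-- The `k ∈ W`, `2^k < n`, such that no `p ∈ PP y z L` which does not divide `D` divides `n - 2^k`. -/
noncomputable def KE (W : Finset ℕ) (y z L D n : ℕ) : Finset ℕ := UW.KD W y z L D n

theorem mem_KE {W : Finset ℕ} {y z L D n k : ℕ} : k ∈ KE W y z L D n ↔
    k ∈ W ∧ 2 ^ k < n ∧ ∀ p ∈ UW.PD y z L D, ¬ p ∣ n - 2 ^ k := by
  unfold KE UW.KD
  rw [mem_filter]

theorem KE_sub (W : Finset ℕ) (y z L D n : ℕ) : KE W y z L D n ⊆ W := fun _ hk => (mem_KE.1 hk).1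

end Pool.Agent.H.MP_c90f74_nt.AW
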