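import Pool.Agent.H.MP_c90f74_nt.UV.Exc
import Pool.Agent.H.MP_c90f74_nt.SF.MonD
import Pool.Agent.H.MP_c90f74_nt.SF.Sym
import Pool.Agent.H.MP_c90f74_nt.SF.Ord
import Pool.Agent.H.MP_c90f74_nt.AW.Defs

/-!
# AW/Cnt: the sieve bound for a set of exponents and a progression

PROOF. As `SF/Cnt`; for `p ∤ D` the residue of `j` modulo `p` is determined by the one of `D (j + 1)`, which avoids the `r` classes of `2^k - x`.
-/

set_option autoImplicit false

namespace Pool.Agent.H.MP_c90f74_nt.AW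

open Finset SF

private theorem card_factor (Z : Finset ℕ) (f g : ℕ → ℕ)
    (h : ∀ i ∈ Z, ∀ j ∈ Z, g i = g j → f i = f j) : (Z.image f).card ≤ (Z.image g).card := by
  classical
  refine Finset.card_le_card_of_injOn
    (fun v => if hv : ∃ i ∈ Z, f i = v then g hv.choose else 0) ?_ ?_
  · intro v hv
    rw [Finset.mem_coe, mem_image] at hv
    obtain ⟨i, hi, hiv⟩ := hv
    have he : ∃ i ∈ Z, f i = v := ⟨i, hi, hiv⟩
    show (if hv : ∃ i ∈ Z, f i = v then g hv.choose else 0) ∈ _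
    rw [dif_pos he, Finset.mem_coe]
    exact mem_image_of_mem g he.choose_spec.1
  · intro v hv w hw hvw
    rw [Finset.mem_coe, mem_image] at hv hw
    obtain ⟨i, hi, hiv⟩ := hv
    obtain ⟨j, hj, hjw⟩ := hw
    have he : ∃ i ∈ Z, f i = v := ⟨i, hi, hiv⟩
    have he' : ∃ i ∈ Z, f i = w := ⟨j, hj, hjw⟩
    have h1 : (if hv : ∃ i ∈ Z, f i = v then g hv.choose else 0) =
        (if hv : ∃ i ∈ Z, f i = w then g hv.choose else 0) := hvw
    rw [dif_pos he, dif_pos he'] at h1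
    have h2 := h _ he.choose_spec.1 _ he'.choose_spec.1 h1
    rw [he.choose_spec.2, he'.choose_spec.2] at h2
    exact h2

private theorem CntE_class {x N a y z r p D : ℕ} (hy : 2 ≤ y) (W K Z : Finset ℕ)
    (hW : W ⊆ Icc (a + 1) (a + N)) (hK : K ⊆ W)
    (hKr : K.card = r) (hp : p ∈ UW.PD y z N D) (hpp : p.Prime)
    (hZ : ∀ j ∈ Z, K ⊆ UW.KD W y z N D (x + D * (j + 1))) :
    (Z.image (fun n => n % p)).card + r ≤ p := by
  classical
  have hp0 : 0 < p := hpp.pos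
  have hpD : ¬ p ∣ D := by
    unfold UW.PD at hp
    exact (mem_filter.1 hp).2
  have hpP : p ∈ SF.PP y z N := by
    unfold UW.PD at hp
    exact (mem_filter.1 hp).1
  have hc : ∀ k : ℕ, (2 ^ k + (p - x % p)) % p + x ≡ 2 ^ k [MOD p] := by
    intro k
    have h1 : (2 ^ k + (p - x % p)) % p + x ≡
        2 ^ k + (p - x % p) + x % p [MOD p] :=
      Nat.ModEq.add (Nat.mod_modEq _ _) (Nat.mod_modEq _ _).symm
    have h2 : 2 ^ k + (p - x % p) + x % p = 2 ^ k + p := by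
      have := Nat.mod_lt x hp0
      omega
    rw [h2] at h1
    refine h1.trans ?_
    show (2 ^ k + p) % p = 2 ^ k % p
    exact Nat.add_mod_right _ _
  have hinj : Set.InjOn (fun k : ℕ => (2 ^ k + (p - x % p)) % p) (K : Set ℕ) := by
    intro k hk k' hk' he
    have he' : (2 ^ k + (p - x % p)) % p = (2 ^ k' + (p - x % p)) % p := he
    have h2 := (hc k).symm
    rw [he'] at h2
    have h1 : 2 ^ k ≡ 2 ^ k' [MOD p] := h2.trans (hc k')
    exact UV.ordw_inj hy hpP (hW (hK (Finset.mem_coe.1 hk))) (hW (hK (Finset.mem_coe.1 hk'))) h1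
  have hcard : (K.image (fun k : ℕ => (2 ^ k + (p - x % p)) % p)).card = r := by
    rw [Finset.card_image_of_injOn hinj, hKr]
  have hdis : Disjoint (Z.image (fun j => D * (j + 1) % p))
      (K.image (fun k : ℕ => (2 ^ k + (p - x % p)) % p)) := by
    rw [Finset.disjoint_left]
    intro a ha hb
    obtain ⟨j, hj, hja⟩ := Finset.mem_image.1 ha
    obtain ⟨k, hk, hka⟩ := Finset.mem_image.1 hb
    have h1 := hZ j hj hk
    unfold UW.KD at h1
    rw [Finset.mem_filter] at h1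
    obtain ⟨-, h2, h3⟩ := h1
    refine h3 p hp ?_
    have h4 : 2 ^ k ≡ x + D * (j + 1) [MOD p] := by
      have h5 := (hc k).symm
      rw [hka, ← hja] at h5
      refine h5.trans ?_
      have h6 : D * (j + 1) % p + x ≡ D * (j + 1) + x [MOD p] :=
        Nat.ModEq.add_right _ (Nat.mod_modEq _ _)
      rw [add_comm x (D * (j + 1))]
      exact h6
    exact (Nat.modEq_iff_dvd' h2.le).1 h4
  have hfac : (Z.image (fun n => n % p)).card ≤ (Z.image (fun j => D * (j + 1) % p)).card := by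
    refine card_factor Z _ _ fun i _ j _ hij => ?_
    have h1 : D * (i + 1) ≡ D * (j + 1) [MOD p] := hij
    have h2 : Nat.gcd p D = 1 := (Nat.Prime.coprime_iff_not_dvd hpp).2 hpD
    have h3 : i + 1 ≡ j + 1 [MOD p] := Nat.ModEq.cancel_left_of_coprime h2 h1
    exact Nat.ModEq.add_right_cancel' 1 h3
  have hsub : Z.image (fun j => D * (j + 1) % p) ∪
      K.image (fun k : ℕ => (2 ^ k + (p - x % p)) % p) ⊆ range p := by
    intro a ha
    rcases Finset.mem_union.1 ha with h | h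
    · obtain ⟨j, -, rfl⟩ := Finset.mem_image.1 h
      exact Finset.mem_range.2 (Nat.mod_lt _ hp0)
    · obtain ⟨k, -, rfl⟩ := Finset.mem_image.1 h
      exact Finset.mem_range.2 (Nat.mod_lt _ hp0)
  have hfin : (Z.image (fun j => D * (j + 1) % p)).card + r ≤ p := by
    rw [← hcard, ← Finset.card_union_of_disjoint hdis]
    exact (Finset.card_le_card hsub).trans (le_of_eq (Finset.card_range p))
  omega

open Classical in
theorem cnte (x H D L y I m r : ℕ) (hL : 2 ≤ L) (hy : L ^ 3 ≤ y) (hI : 16 ≤ I) (hD : 1 ≤ D)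
    (hDL : Nat.log 2 D + 1 ≤ L)
    (hw : (I : ℝ) / 4 ≤ ∑ p ∈ (Ioc y (y ^ (2 ^ I))).filter Nat.Prime, 1 / (p : ℝ))
    (hm : 1 ≤ m) (hmr : 16 * m ≤ r * I) (hH : (y ^ (2 ^ I)) ^ (2 * m) ≤ H)
    (W K : Finset ℕ) (hW : W ⊆ Icc 1 L) (hK : K ⊆ W) (hKr : K.card = r) :
    (((range H).filter (fun j => K ⊆ KE W y (y ^ (2 ^ I)) L D (x + D * (j + 1)))).card : ℝ) ≤
      8 * H * (16 * m / (r * I)) ^ m := by
  generalize hz : y ^ (2 ^ I) = z at hw hH ⊢
  generalize hZdef : (range H).filter (fun j => K ⊆ KE W y z L D (x + D * (j + 1))) = Z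
  have hL3 : 4 * L ≤ L ^ 3 := by
    have h1 : L ^ 3 = L * L * L := by ring
    rw [h1]
    have h2 : 2 * 2 ≤ L * L := Nat.mul_le_mul hL hL
    exact Nat.mul_le_mul_right L h2
  have hy8 : 8 ≤ y := by omega
  have hy2 : 2 ≤ y := by omega
  have hrL : r ≤ L := by
    rw [← hKr]
    refine (Finset.card_le_card (hK.trans hW)).trans ?_
    rw [Nat.card_Icc]
    omega
  have hz1 : 1 ≤ z := by
    rw [← hz]
    exact Nat.one_le_pow _ _ (by omega)
  have hpP : ∀ p ∈ UW.PD y z L D, p.Prime ∧ y < p ∧ p ≤ z := by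
    intro p hp
    unfold UW.PD SF.PP at hp
    rw [Finset.mem_filter, Finset.mem_filter, Finset.mem_Ioc] at hp
    exact ⟨hp.1.2.1, hp.1.1.1, hp.1.1.2⟩
  have hZr : Z ⊆ range H := by
    rw [← hZdef]
    exact Finset.filter_subset _ _
  have hZm : ∀ j ∈ Z, K ⊆ KE W y z L D (x + D * (j + 1)) := by
    intro j hj
    rw [← hZdef, Finset.mem_filter] at hj
    exact hj.2
  have h2r : ∀ p ∈ UW.PD y z L D, 2 * r < p := by
    intro p hp
    have := (hpP p hp).2.1
    omega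
  have hIcc : W ⊆ Icc (0 + 1) (0 + L) := by
    rw [Nat.zero_add, Nat.zero_add]
    exact hW
  have hM := mont Z (UW.PD y z L D) H m r z hZr
    (fun p hp => ⟨(hpP p hp).1, by have := h2r p hp; omega, (hpP p hp).2.2,
      CntE_class (x := x) (a := 0) (D := D) hy2 W K Z hIcc hK hKr hp (hpP p hp).1 hZm⟩) hz1 hH
  have hg : ∀ p ∈ UW.PD y z L D, 0 ≤ (r : ℝ) / ((p : ℝ) - r) ∧ (r : ℝ) / ((p : ℝ) - r) ≤ 1 := by
    intro p hp
    have h1 : (2 : ℝ) * r < p := by exact_mod_cast h2r p hp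
    have h2 : (0 : ℝ) ≤ r := Nat.cast_nonneg r
    have h3 : (0 : ℝ) < (p : ℝ) - r := by linarith
    refine ⟨div_nonneg h2 h3.le, ?_⟩
    rw [div_le_one h3]
    linarith
  have hG1 : (r : ℝ) * ∑ p ∈ UW.PD y z L D, 1 / (p : ℝ) ≤
      ∑ p ∈ UW.PD y z L D, (r : ℝ) / ((p : ℝ) - r) := by
    rw [Finset.mul_sum]
    refine Finset.sum_le_sum fun p hp => ?_
    have h1 : (2 : ℝ) * r < p := by exact_mod_cast h2r p hp
    have h2 : (0 : ℝ) ≤ r := Nat.cast_nonneg r
    have h3 : (0 : ℝ) < (p : ℝ) - r := by linarith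
    rw [mul_one_div]
    exact div_le_div_of_nonneg_left h2 h3 (by linarith)
  have hS : (I : ℝ) / 8 ≤ ∑ p ∈ UW.PD y z L D, 1 / (p : ℝ) := by
    have h1 := ord_sum y z L (by omega) hy
    have h2 : (16 : ℝ) ≤ I := by exact_mod_cast hI
    have h3 := UW.sumPD1 y z L D hD (by omega)
    linarith
  have hr0 : (0 : ℝ) ≤ r := Nat.cast_nonneg r
  have hmr' : (16 : ℝ) * m ≤ r * I := by exact_mod_cast hmr
  have hm1 : (1 : ℝ) ≤ m := by exact_mod_cast hm
  have hrI : (0 : ℝ) < r * I := by linarith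
  have hG2 : (r : ℝ) * I / 8 ≤ ∑ p ∈ UW.PD y z L D, (r : ℝ) / ((p : ℝ) - r) := by
    have h1 : (r : ℝ) * (I / 8) ≤ r * ∑ p ∈ UW.PD y z L D, 1 / (p : ℝ) :=
      mul_le_mul_of_nonneg_left hS hr0
    have h2 : (r : ℝ) * I / 8 = r * (I / 8) := by ring
    rw [h2]
    exact h1.trans hG1
  have hsym := sym_ge (UW.PD y z L D) (fun p => (r : ℝ) / ((p : ℝ) - r)) m hm hg (by linarith)
  have hbase : (r : ℝ) * I / (16 * m) ≤
      (∑ p ∈ UW.PD y z L D, (r : ℝ) / ((p : ℝ) - r)) / (2 * m) := by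
    have h1 : (r : ℝ) * I / (16 * m) = (r * I / 8) / (2 * m) := by
      rw [div_div]
      congr 1
      ring
    rw [h1]
    exact div_le_div_of_nonneg_right hG2 (by linarith)
  have hpow : ((r : ℝ) * I / (16 * m)) ^ m ≤
      ∑ T ∈ (UW.PD y z L D).powersetCard m, ∏ p ∈ T, (r : ℝ) / ((p : ℝ) - r) :=
    (pow_le_pow_left₀ (div_nonneg hrI.le (by linarith)) hbase m).trans hsym
  have hfin : (Z.card : ℝ) * ((r : ℝ) * I / (16 * m)) ^ m ≤ 8 * H :=
    (mul_le_mul_of_nonneg_left hpow (Nat.cast_nonneg _)).trans hM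
  have hpos : (0 : ℝ) < (r : ℝ) * I / (16 * m) := div_pos hrI (by linarith)
  have hinv : ((16 : ℝ) * m / (r * I)) ^ m = (((r : ℝ) * I / (16 * m)) ^ m)⁻¹ := by
    rw [← inv_pow, inv_div]
  rw [hinv, ← div_eq_mul_inv, le_div_iff₀ (pow_pos hpos m)]
  exact hfin

end Pool.Agent.H.MP_c90f74_nt.AW
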