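import Pool.Agent.H.MP_c90f74_nt.AW.Defs

/-!
# AW/Good: the exponents which are not counted by `smallCount` are in `KE`

PROOF. As `SF/Good`: at most one `k` with `2^k ≤ x` has `n - 2^k ≤ z`.
-/

set_option autoImplicit false

namespace Pool.Agent.H.MP_c90f74_nt.AW

open Finset

theorem good_le (x n D y z L : ℕ) (W : Finset ℕ) (ζ : ℝ) (hW : ∀ k ∈ W, 2 ^ k ≤ x) (hn : x < n) (hz : 2 * z ≤ x)
    (hζ : (z : ℝ) ≤ ζ) :
    W.card ≤ (KE W y z L D n).card + smallCount ζ D W n + 1 := by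
  classical
  obtain ⟨S, hS⟩ : ∃ S : Set ℕ, S = {k : ℕ | k ∈ W ∧ 2 ^ k < n ∧
      ∃ p : ℕ, p.Prime ∧ (p : ℝ) ≤ ζ ∧ ¬ p ∣ D ∧ p ∣ n - 2 ^ k ∧ p < n - 2 ^ k} := ⟨_, rfl⟩
  have hfin : S.Finite := by
    refine (Finset.finite_toSet W).subset ?_
    rw [hS]
    rintro k ⟨h, -⟩
    exact h
  have hcard : smallCount ζ D W n = hfin.toFinset.card := by
    unfold smallCount
    rw [← hS]
    exact Set.ncard_eq_toFinset_card S hfin
  have key : ∀ k ∈ W, k ∉ KE W y z L D n → k ∉ S → n - 2 ^ k ≤ z := by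
    intro k h1 h3 h4
    by_contra hcon
    push Not at hcon
    apply h3
    refine mem_KE.2 ⟨h1, lt_of_le_of_lt (hW k h1) hn, fun p hp hd => ?_⟩
    apply h4
    unfold UW.PD SF.PP at hp
    obtain ⟨hp0, hpD⟩ := mem_filter.1 hp
    obtain ⟨hp1, hp2, -⟩ := mem_filter.1 hp0
    have hpz := (mem_Ioc.1 hp1).2
    rw [hS]
    exact ⟨h1, lt_of_le_of_lt (hW k h1) hn, p, hp2, (Nat.cast_le.2 hpz).trans hζ, hpD, hd,
      lt_of_le_of_lt hpz hcon⟩
  obtain ⟨R, hR⟩ : ∃ R : Finset ℕ,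
      R = W.filter (fun k => k ∉ KE W y z L D n ∧ k ∉ S) := ⟨_, rfl⟩
  have hmem : ∀ k, k ∈ R ↔ k ∈ W ∧ k ∉ KE W y z L D n ∧ k ∉ S := fun k => by
    rw [hR, mem_filter]
  have hlt : ∀ a b, a ∈ R → b ∈ R → ¬ a < b := by
    intro a b ha hb hab
    obtain ⟨ha1, ha2, ha3⟩ := (hmem a).1 ha
    obtain ⟨hb1, -, -⟩ := (hmem b).1 hb
    have h1 := key a ha1 ha2 ha3
    have h2 := hW b hb1
    have h3 := hW a ha1
    have h4 : 2 ^ (a + 1) ≤ 2 ^ b := Nat.pow_le_pow_right two_pos hab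
    rw [pow_succ] at h4
    omega
  have hone : R.card ≤ 1 := by
    rw [card_le_one]
    intro a ha b hb
    rcases lt_trichotomy a b with h | h | h
    · exact (hlt a b ha hb h).elim
    · exact h
    · exact (hlt b a hb ha h).elim
  have hsub : W ⊆ (KE W y z L D n ∪ hfin.toFinset) ∪ R := by
    intro k hk
    by_cases h1 : k ∈ KE W y z L D n
    · exact mem_union_left _ (mem_union_left _ h1)
    by_cases h2 : k ∈ S
    · exact mem_union_left _ (mem_union_right _ (hfin.mem_toFinset.2 h2))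
    · exact mem_union_right _ ((hmem k).2 ⟨hk, h1, h2⟩)
  have h1 := card_le_card hsub
  have h2 := card_union_le (KE W y z L D n ∪ hfin.toFinset) R
  have h3 := card_union_le (KE W y z L D n) hfin.toFinset
  rw [hcard]
  omega

end Pool.Agent.H.MP_c90f74_nt.AW
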