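import Pool.Agent.H.MP_c90f74_nt.AW.Avg
import Pool.Agent.H.MP_c90f74_nt.AW.Cnt
import Pool.Agent.H.MP_c90f74_nt.AW.Good

/-!
# AW/Core: the bound with the parameters

PROOF. As `SF/Core`.
-/

set_option autoImplicit false

namespace Pool.Agent.H.MP_c90f74_nt.AW

open Finset SF

theorem core (x H D L y I m r t : ℕ) (W : Finset ℕ) (ζ ρ : ℝ) (hW : W ⊆ Icc 1 L) (hWx : ∀ k ∈ W, 2 ^ k ≤ x) (hL : 2 ≤ L) (hy : L ^ 3 ≤ y) (hI : 16 ≤ I)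
    (hD : 1 ≤ D) (hDL : Nat.log 2 D + 1 ≤ L)
    (hw : (I : ℝ) / 4 ≤ ∑ p ∈ (Ioc y (y ^ (2 ^ I))).filter Nat.Prime, 1 / (p : ℝ))
    (hm : 1 ≤ m) (hmr : 16 * m ≤ r * I) (hH : (y ^ (2 ^ I)) ^ (2 * m) ≤ H) (hx : 2 * y ^ (2 ^ I) ≤ x)
    (hζ : ((y ^ (2 ^ I) : ℕ) : ℝ) ≤ ζ) (hrt : r ≤ t) (htL : t ≤ W.card) (hρ0 : 0 ≤ ρ)
    (hρ : ∀ i : ℕ, i < r → ((W.card : ℝ) - i) ≤ ρ * ((t : ℝ) - i)) :
    ({j : ℕ | 1 ≤ j ∧ j ≤ H ∧ AW.smallCount ζ D W (x + D * j) + t + 2 ≤ W.card}.ncard : ℝ) ≤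
      8 * H * (16 * m / (r * I)) ^ m * ρ ^ r := by
  classical
  have hL3 : 2 ^ 3 ≤ L ^ 3 := Nat.pow_le_pow_left hL 3
  have hy1 : 1 ≤ y := by omega
  have hz1 : 1 ≤ y ^ (2 ^ I) := Nat.one_le_pow _ _ hy1
  have hx1 : 1 ≤ x := by omega
  have hIr : (0 : ℝ) ≤ (16 * m / (r * I) : ℝ) := by positivity
  have hB0 : (0 : ℝ) ≤ 8 * H * (16 * m / (r * I)) ^ m := by positivity
  obtain ⟨J, hJ⟩ : ∃ J : Finset ℕ, J = (range H).filter
    (fun j => AW.smallCount ζ D W (x + D * (j + 1)) + t + 2 ≤ W.card) := ⟨_, rfl⟩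
  have hset : {j : ℕ | 1 ≤ j ∧ j ≤ H ∧ AW.smallCount ζ D W (x + D * j) + t + 2 ≤ W.card} ⊆
      ((J.image (fun j => j + 1) : Finset ℕ) : Set ℕ) := by
    rintro n ⟨h1, h2, h3⟩
    rw [mem_coe, mem_image]
    refine ⟨n - 1, ?_, by omega⟩
    rw [hJ, mem_filter, mem_range]
    refine ⟨by omega, ?_⟩
    have h4 : n - 1 + 1 = n := by omega
    rw [h4]
    exact h3
  have hcard : {j : ℕ | 1 ≤ j ∧ j ≤ H ∧ AW.smallCount ζ D W (x + D * j) + t + 2 ≤ W.card}.ncard ≤ J.card := by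
    calc {j : ℕ | 1 ≤ j ∧ j ≤ H ∧ AW.smallCount ζ D W (x + D * j) + t + 2 ≤ W.card}.ncard
        ≤ ((J.image (fun j => j + 1) : Finset ℕ) : Set ℕ).ncard :=
          Set.ncard_le_ncard hset (Finset.finite_toSet _)
      _ = (J.image (fun j => j + 1)).card := Set.ncard_coe_finset _
      _ ≤ J.card := card_image_le
  have hf : ∀ j ∈ J, KE W y (y ^ (2 ^ I)) L D (x + D * (j + 1)) ⊆ W ∧
      t ≤ (KE W y (y ^ (2 ^ I)) L D (x + D * (j + 1))).card := by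
    intro j hj
    refine ⟨?_, ?_⟩
    · exact KE_sub _ _ _ _ _ _
    · rw [hJ, mem_filter] at hj
      have h0 : 1 ≤ D * (j + 1) := Nat.mul_pos hD (by omega)
      have h1 := good_le x (x + D * (j + 1)) D y (y ^ (2 ^ I)) L W ζ hWx (by omega) hx hζ
      omega
  have hB : ∀ K ⊆ W, K.card = r →
      ((J.filter (fun j => K ⊆ KE W y (y ^ (2 ^ I)) L D (x + D * (j + 1)))).card : ℝ) ≤
        8 * H * (16 * m / (r * I)) ^ m := by
    intro K hK hKr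
    refine le_trans ?_ (cnte x H D L y I m r hL hy hI hD hDL hw hm hmr hH W K hW hK hKr)
    have h1 : (J.filter (fun j => K ⊆ KE W y (y ^ (2 ^ I)) L D (x + D * (j + 1)))).card ≤
        ((range H).filter (fun j => K ⊆ KE W y (y ^ (2 ^ I)) L D (x + D * (j + 1)))).card := by
      refine card_le_card ?_
      intro j hj
      rw [mem_filter] at hj ⊢
      rw [hJ, mem_filter] at hj
      exact ⟨hj.1.1, hj.2⟩
    exact_mod_cast h1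
  have h1 := avgW J W r t (fun j => KE W y (y ^ (2 ^ I)) L D (x + D * (j + 1))) hf _ ρ hB0 hB hrt htL hρ hρ0
  refine le_trans ?_ h1
  exact_mod_cast hcard

end Pool.Agent.H.MP_c90f74_nt.AW
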