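import Pool.Agent.H.MP_c90f74_nt.AW.Defs

/-!
# AW/Pig: a range with many exponents

PROOF. As `MP/Pig`.
-/

set_option autoImplicit false

namespace Pool.Agent.H.MP_c90f74_nt.AW

open Finset SF MP

private theorem Pig_one (n D L I J z k : ℕ) (W : Finset ℕ) (r : ℝ) (hL1 : 1 ≤ L) (hz : yj L I J ≤ z) (hk : k ∈ W)
    (hkn : 2 ^ k < n) (hr : ((((n - 2 ^ k).primeFactors.filter (fun p => p ≤ z ∧ ¬ p ∣ D)).card : ℕ) : ℝ) ≤ r) :
    (((range J).filter (fun j => k ∉ KE W (yj L I j) (yj L I (j + 1)) L D n)).card : ℝ) ≤ r := by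
  classical
  refine le_trans ?_ hr
  have hex : ∀ j : ℕ, ∃ p : ℕ, j ∈ (range J).filter (fun j => k ∉ KE W (yj L I j) (yj L I (j + 1)) L D n) →
      p.Prime ∧ yj L I j < p ∧ p ≤ yj L I (j + 1) ∧ p ∣ n - 2 ^ k ∧ ¬ p ∣ D := by
    intro j
    by_cases hj : j ∈ (range J).filter (fun j => k ∉ KE W (yj L I j) (yj L I (j + 1)) L D n)
    · have h1 := (mem_filter.1 hj).2
      rw [mem_KE, not_and, not_and] at h1
      have h2 := h1 hk hkn
      push Not at h2
      obtain ⟨p, hp, hpd⟩ := h2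
      unfold UW.PD PP at hp
      rw [mem_filter, mem_filter, mem_Ioc] at hp
      exact ⟨p, fun _ => ⟨hp.1.2.1, hp.1.1.1, hp.1.1.2, hpd, hp.2⟩⟩
    · exact ⟨0, fun h => absurd h hj⟩
  choose P hP using hex
  have hcard : ((range J).filter (fun j => k ∉ KE W (yj L I j) (yj L I (j + 1)) L D n)).card ≤
      ((n - 2 ^ k).primeFactors.filter (fun p => p ≤ z ∧ ¬ p ∣ D)).card := by
    refine Finset.card_le_card_of_injOn P ?_ ?_
    · intro j hj
      rw [mem_coe] at hj
      obtain ⟨h1, h2, h3, h4, h4D⟩ := hP j hj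
      rw [mem_coe, mem_filter, Nat.mem_primeFactors]
      have h5 := mem_range.1 (mem_filter.1 hj).1
      refine ⟨⟨h1, h4, by omega⟩, h3.trans ((yj_mono L I hL1 (by omega : j + 1 ≤ J)).trans hz), h4D⟩
    · intro i hi j hj hij
      rw [mem_coe] at hi hj
      obtain ⟨-, h2, h3, -⟩ := hP i hi
      obtain ⟨-, h5, h6, -⟩ := hP j hj
      rcases lt_trichotomy i j with h | h | h
      · have h7 := yj_mono L I hL1 (by omega : i + 1 ≤ j)
        omega
      · exact h
      · have h7 := yj_mono L I hL1 (by omega : j + 1 ≤ i)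
        omega
  exact_mod_cast hcard

theorem pig (n D L I J z : ℕ) (W : Finset ℕ) (r T : ℝ) (hL1 : 1 ≤ L) (hJ : 1 ≤ J) (hr : 2 * r ≤ J)
    (hz : yj L I J ≤ z) (hT : T ≤ AW.fewCount z D r W n) :
    ∃ j < J, T ≤ 2 * ((KE W (yj L I j) (yj L I (j + 1)) L D n).card : ℝ) := by
  classical
  obtain ⟨F, hF⟩ : ∃ F : Finset ℕ, F = W.filter (fun k => 2 ^ k < n ∧
      ((((n - 2 ^ k).primeFactors.filter (fun p => p ≤ z ∧ ¬ p ∣ D)).card : ℕ) : ℝ) ≤ r) := ⟨_, rfl⟩
  have hFc : AW.fewCount z D r W n = F.card := by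
    unfold AW.fewCount
    rw [← Set.ncard_coe_finset]
    congr 1
    ext k
    rw [hF, Set.mem_ofPred_eq, mem_coe, mem_filter]
  rw [hFc] at hT
  by_contra hcon
  push Not at hcon
  have hgood : ∀ k ∈ F, (J : ℝ) ≤ 2 * (((range J).filter (fun j => k ∈ KE W (yj L I j) (yj L I (j + 1)) L D n)).card : ℝ) := by
    intro k hk
    rw [hF, mem_filter] at hk
    have h1 := Pig_one n D L I J z k W r hL1 hz hk.1 hk.2.1 hk.2.2
    have h2 : ((range J).filter (fun j => k ∈ KE W (yj L I j) (yj L I (j + 1)) L D n)).card +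
        ((range J).filter (fun j => k ∉ KE W (yj L I j) (yj L I (j + 1)) L D n)).card = J := by
      rw [Finset.card_filter_add_card_filter_not, card_range]
    have h3 : (((range J).filter (fun j => k ∈ KE W (yj L I j) (yj L I (j + 1)) L D n)).card : ℝ) +
        (((range J).filter (fun j => k ∉ KE W (yj L I j) (yj L I (j + 1)) L D n)).card : ℝ) = J := by
      exact_mod_cast h2
    linarith
  have hdc : ∑ k ∈ F, (((range J).filter (fun j => k ∈ KE W (yj L I j) (yj L I (j + 1)) L D n)).card : ℝ) ≤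
      ∑ j ∈ range J, ((KE W (yj L I j) (yj L I (j + 1)) L D n).card : ℝ) := by
    have h1 : ∑ k ∈ F, ((range J).filter (fun j => k ∈ KE W (yj L I j) (yj L I (j + 1)) L D n)).card =
        ∑ j ∈ range J, (F.filter (fun k => k ∈ KE W (yj L I j) (yj L I (j + 1)) L D n)).card := by
      simp only [Finset.card_filter]
      exact Finset.sum_comm
    have h2 : ∑ j ∈ range J, (F.filter (fun k => k ∈ KE W (yj L I j) (yj L I (j + 1)) L D n)).card ≤
        ∑ j ∈ range J, (KE W (yj L I j) (yj L I (j + 1)) L D n).card := by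
      refine Finset.sum_le_sum fun j _ => Finset.card_le_card ?_
      intro k hk
      exact (mem_filter.1 hk).2
    have h3 := h1.le.trans h2
    exact_mod_cast h3
  have h1 : (F.card : ℝ) * J ≤ 2 * ∑ j ∈ range J, ((KE W (yj L I j) (yj L I (j + 1)) L D n).card : ℝ) := by
    calc (F.card : ℝ) * J = ∑ _k ∈ F, (J : ℝ) := by rw [Finset.sum_const, nsmul_eq_mul]
      _ ≤ ∑ k ∈ F, 2 * (((range J).filter (fun j => k ∈ KE W (yj L I j) (yj L I (j + 1)) L D n)).card : ℝ) :=
        Finset.sum_le_sum hgood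
      _ = 2 * ∑ k ∈ F, (((range J).filter (fun j => k ∈ KE W (yj L I j) (yj L I (j + 1)) L D n)).card : ℝ) := by
        rw [Finset.mul_sum]
      _ ≤ _ := mul_le_mul_of_nonneg_left hdc (by norm_num)
  have h2 : 2 * ∑ j ∈ range J, ((KE W (yj L I j) (yj L I (j + 1)) L D n).card : ℝ) < (F.card : ℝ) * J := by
    rw [Finset.mul_sum]
    have hne : (range J).Nonempty := ⟨0, mem_range.2 (by omega)⟩
    calc ∑ j ∈ range J, 2 * ((KE W (yj L I j) (yj L I (j + 1)) L D n).card : ℝ)
        < ∑ _j ∈ range J, T := Finset.sum_lt_sum_of_nonempty hne fun j hj => hcon j (mem_range.1 hj)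
      _ = J * T := by rw [Finset.sum_const, nsmul_eq_mul, card_range]
      _ ≤ (F.card : ℝ) * J := by
        rw [mul_comm]
        exact mul_le_mul_of_nonneg_right hT (Nat.cast_nonneg J)
  linarith

end Pool.Agent.H.MP_c90f74_nt.AW
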