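import Pool.Agent.H.MP_c90f74_nt.AW.KEb
import Pool.Agent.H.MP_c90f74_nt.AW.Pig
import Pool.Agent.H.MP_c90f74_nt.MP.Geo
import Pool.Agent.H.MP_c90f74_nt.MP.Par
import Pool.Agent.H.MP_c90f74_nt.SF.Win

/-!
# AW/Few: the theorem about `fewCount`

PROOF. As `MP/Main`.
-/

set_option autoImplicit false

namespace Pool.Agent.H.MP_c90f74_nt.AW

open Finset SF MP

private theorem Main_pow (L I J j m : ℕ) (hj : j < J) :
    yj L I (j + 1) ^ (2 * (m * 2 ^ (I * (J - 1 - j)))) = yj L I J ^ (2 * m) := by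
  unfold yj
  rw [← pow_mul, ← pow_mul]
  congr 1
  have h1 : I * J = I * (j + 1) + I * (J - 1 - j) := by
    rw [← mul_add]
    congr 1
    omega
  rw [h1, pow_add]
  ring

/-- The bound for one `j`. -/
private theorem Main_one (x H D z L m J I j t : ℕ) (W : Finset ℕ) (d : ℝ) (hd : 0 < d) (hd1 : d ≤ 1) (hI : 16 ≤ I)
    (hdI : 4096 ≤ d * I) (hL3 : 3 ≤ L)
    (hw : ∀ y : ℕ, L ≤ y → (I : ℝ) / 4 ≤ ∑ p ∈ (Ioc y (y ^ (2 ^ I))).filter Nat.Prime, 1 / (p : ℝ))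
    (hm : 1 ≤ m) (hj : j < J) (hzH : z ^ (2 * m) ≤ H) (hJz : yj L I J ≤ z)
    (hD : 1 ≤ D) (hDL : Nat.log 2 D + 1 ≤ L) (hlx : 0 < Real.log x) (hxL : Real.log x ≤ L)
    (hW : W ⊆ Icc 1 L) (hHW : Real.log H ≤ W.card * Real.log (Real.log x)) (ht : t = ⌈d * W.card / 2⌉₊) :
    (((range H).filter (fun i => t ≤ (KE W (yj L I j) (yj L I (j + 1)) L D (x + D * (i + 1))).card)).card : ℝ) ≤
      8 * H * (128 / (d * I)) ^ (m * 2 ^ (I * (J - 1 - j))) := by
  classical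
  have hL1 : 1 ≤ L := by omega
  have hLr : (3 : ℝ) ≤ L := by exact_mod_cast hL3
  have hL0 : (0 : ℝ) < L := by linarith
  have hlL : 0 < Real.log L := Real.log_pos (by linarith)
  obtain ⟨w, hw0⟩ : ∃ w : ℕ, w = W.card := ⟨_, rfl⟩
  rw [← hw0] at hHW ht
  have hwR : (0 : ℝ) ≤ w := Nat.cast_nonneg w
  obtain ⟨M, hM⟩ : ∃ M : ℕ, M = m * 2 ^ (I * (J - 1 - j)) := ⟨_, rfl⟩
  rw [← hM]
  have hM1 : 1 ≤ M := by
    rw [hM]
    exact Nat.mul_pos hm (by positivity)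
  have hzM : yj L I (j + 1) ^ (2 * M) ≤ H := by
    rw [hM, Main_pow L I J j m hj]
    exact (Nat.pow_le_pow_left hJz _).trans hzH
  have hyj : L ≤ yj L I j := by
    calc L = L ^ 1 := (pow_one L).symm
      _ ≤ L ^ 3 := Nat.pow_le_pow_right hL1 (by norm_num)
      _ ≤ yj L I j := yj_ge L I j hL1
  -- `M ≤ d w/8`
  have hMd : (M : ℝ) ≤ d * w / 8 := by
    have h1 : (L ^ (3 * 2 ^ I)) ^ (2 * M) ≤ H := by
      refine le_trans (Nat.pow_le_pow_left ?_ _) hzM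
      rw [yj_succ, pow_mul]
      exact Nat.pow_le_pow_left (yj_ge L I j hL1) _
    have h2 : (((L : ℝ)) ^ (3 * 2 ^ I)) ^ (2 * M) ≤ H := by exact_mod_cast h1
    have h3 := Real.log_le_log (by positivity) h2
    rw [Real.log_pow, Real.log_pow] at h3
    push_cast at h3
    have h4 : Real.log (Real.log x) ≤ Real.log L := Real.log_le_log hlx hxL
    have h5 : (w : ℝ) * Real.log (Real.log x) ≤ w * Real.log L := mul_le_mul_of_nonneg_left h4 hwR
    have h6 : 6 * (M : ℝ) * 2 ^ I ≤ w := by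
      refine le_of_mul_le_mul_right ?_ hlL
      linarith
    have hI2 : (I : ℝ) ≤ 2 ^ I := by exact_mod_cast (Nat.lt_two_pow_self (n := I)).le
    have hdI2 : 4096 ≤ d * 2 ^ I := hdI.trans (mul_le_mul_of_nonneg_left hI2 hd.le)
    have h7 : d * (6 * (M : ℝ) * 2 ^ I) ≤ d * w := mul_le_mul_of_nonneg_left h6 hd.le
    have h8 : (M : ℝ) * 4096 ≤ M * (d * 2 ^ I) := mul_le_mul_of_nonneg_left hdI2 (Nat.cast_nonneg M)
    have h9 : 0 ≤ (M : ℝ) := Nat.cast_nonneg M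
    linarith
  have hdw : 0 ≤ d * w := by positivity
  have ht1 : d * w / 2 ≤ t := by
    rw [ht]
    exact Nat.le_ceil _
  have htL : t ≤ w := by
    rw [ht]
    refine Nat.ceil_le.2 ?_
    have : d * w ≤ 1 * w := mul_le_mul_of_nonneg_right hd1 hwR
    linarith
  have hMt : M ≤ t := by
    have h1 : (M : ℝ) ≤ t := by linarith
    exact_mod_cast h1
  have hρ : ∀ i : ℕ, i < M → ((w : ℝ) - i) ≤ 8 / d * ((t : ℝ) - i) := by
    intro i hi
    have h1 : (i : ℝ) ≤ M := by exact_mod_cast hi.le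
    have h2 : d * w / 8 ≤ (t : ℝ) - i := by linarith
    calc (w : ℝ) - i ≤ w := by
          have : (0 : ℝ) ≤ i := Nat.cast_nonneg i
          linarith
      _ = 8 / d * (d * w / 8) := by field_simp
      _ ≤ _ := mul_le_mul_of_nonneg_left h2 (by positivity)
  have hmain := kk_bound x H D L (yj L I j) I M t W hW (8 / d) (by omega) (yj_ge L I j hL1) hI hD hDL (hw _ hyj) hM1
    (by rw [← yj_succ]; exact hzM) hMt (by omega) (by positivity) (by rw [← hw0]; exact hρ)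
  rw [← yj_succ] at hmain
  have h1 : (16 : ℝ) / I * (8 / d) = 128 / (d * I) := by
    rw [div_mul_div_comm, mul_comm (I : ℝ) d]
    norm_num
  rw [h1] at hmain
  exact hmain

theorem few_le (d : ℝ) (hd : 0 < d) (hd1 : d ≤ 1) : ∃ C : ℕ, ∃ c : ℝ, 0 < c ∧ ∃ x₀ : ℕ, ∀ x H D z : ℕ, x₀ ≤ x →
    1 ≤ D → D * H ≤ x → Real.log x ^ C ≤ z → z ^ 2 ≤ H →
    ∀ W : Finset ℕ, (∀ k ∈ W, 1 ≤ k ∧ 2 ^ k ≤ x) → Real.log H ≤ W.card * Real.log (Real.log x) →
    ({j : ℕ | 1 ≤ j ∧ j ≤ H ∧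
        d * W.card ≤ AW.fewCount z D (c * Real.log (Real.log z / Real.log (Real.log x))) W (x + D * j)}.ncard : ℝ) ≤
      H * Real.exp (-(c * Real.log H / Real.log z)) := by
  classical
  obtain ⟨y0, hy02, hwin⟩ := win
  obtain ⟨I, hI⟩ : ∃ I : ℕ, 4096 / d ≤ I := exists_nat_ge _
  have hdI : 4096 ≤ d * I := by
    rw [div_le_iff₀ hd] at hI
    linarith
  have hIr : (4096 : ℝ) ≤ I := by
    have h1 : d * I ≤ 1 * I := mul_le_mul_of_nonneg_right hd1 (Nat.cast_nonneg I)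
    linarith
  have hI16 : 16 ≤ I := by
    have h1 : (16 : ℝ) ≤ I := by linarith
    exact_mod_cast h1
  have hI0 : (0 : ℝ) < I := by linarith
  obtain ⟨x₀, hx₀⟩ := par2 I y0 (2 / d) (by omega)
  refine ⟨16 ^ I, 1 / (8 * I), by positivity, x₀, ?_⟩
  intro x H D z hx hD hDH hz hzH W hW1 hHW
  have hHx : H ≤ x := (Nat.le_mul_of_pos_left H hD).trans hDH
  obtain ⟨L, m, J, hL, hy0, hL3, hB, hm, hJ1, hzm, hm2, hJz, hJW, hxL, hL2, hlz, hlH, hx2⟩ :=
    hx₀ x H z hx hHx hz hzH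
  have hL1 : 1 ≤ L := by omega
  have hDL : Nat.log 2 D + 1 ≤ L := by
    have h1 : 1 ≤ H := by
      rcases Nat.eq_zero_or_pos H with h | h
      · rw [h, Nat.cast_zero, Real.log_zero] at hlH
        exact absurd hlH (lt_irrefl _)
      · exact h
    have hDx : D ≤ x := (Nat.le_mul_of_pos_right D h1).trans hDH
    rw [hL]
    exact Nat.succ_le_succ (Nat.log_mono_right hDx)
  obtain ⟨t, ht⟩ : ∃ t : ℕ, t = ⌈d * W.card / 2⌉₊ := ⟨_, rfl⟩
  have hWL : W ⊆ Icc 1 L := by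
    intro k hk
    have h1 := Nat.le_log_of_pow_le (by norm_num) (hW1 k hk).2
    rw [mem_Icc, hL]
    exact ⟨(hW1 k hk).1, by omega⟩
  have hlx : 0 < Real.log x := by
    have hH0 : (0 : ℝ) < H := by
      rcases Nat.eq_zero_or_pos H with h | h
      · rw [h, Nat.cast_zero, Real.log_zero] at hlH
        exact absurd hlH (lt_irrefl _)
      · exact_mod_cast h
    exact lt_of_lt_of_le hlH (Real.log_le_log hH0 (by exact_mod_cast hHx))
  obtain ⟨V, hV⟩ : ∃ V : ℝ, V = Real.log (Real.log z / Real.log (Real.log x)) := ⟨_, rfl⟩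
  rw [← hV] at hJW ⊢
  obtain ⟨S, hS⟩ : ∃ S : ℕ → Finset ℕ, S = fun j => (range H).filter
    (fun i => t ≤ (KE W (yj L I j) (yj L I (j + 1)) L D (x + D * (i + 1))).card) := ⟨_, rfl⟩
  have hr : 2 * (1 / (8 * (I : ℝ)) * V) ≤ J := by
    have h1 : 2 * (1 / (8 * (I : ℝ)) * V) = V / (4 * I) := by
      field_simp
      ring
    rw [h1]
    exact hJW
  have hset : {j : ℕ | 1 ≤ j ∧ j ≤ H ∧ d * W.card ≤ AW.fewCount z D (1 / (8 * (I : ℝ)) * V) W (x + D * j)} ⊆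
      ((((range J).biUnion S).image (fun i => i + 1) : Finset ℕ) : Set ℕ) := by
    rintro n ⟨h1, h2, h3⟩
    rw [mem_coe, mem_image]
    refine ⟨n - 1, ?_, by omega⟩
    obtain ⟨j, hj, hjT⟩ := pig (x + D * n) D L I J z W _ _ hL1 hJ1 hr hJz h3
    rw [mem_biUnion]
    refine ⟨j, mem_range.2 hj, ?_⟩
    rw [hS, mem_filter, mem_range]
    refine ⟨by omega, ?_⟩
    have h4 : n - 1 + 1 = n := by omega
    rw [h4, ht]
    refine Nat.ceil_le.2 ?_
    linarith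
  have hcard : ({j : ℕ | 1 ≤ j ∧ j ≤ H ∧
      d * W.card ≤ AW.fewCount z D (1 / (8 * (I : ℝ)) * V) W (x + D * j)}.ncard : ℝ) ≤ ∑ j ∈ range J, ((S j).card : ℝ) := by
    have h1 : {j : ℕ | 1 ≤ j ∧ j ≤ H ∧
        d * W.card ≤ AW.fewCount z D (1 / (8 * (I : ℝ)) * V) W (x + D * j)}.ncard ≤ ∑ j ∈ range J, (S j).card := by
      calc _ ≤ ((((range J).biUnion S).image (fun i => i + 1) : Finset ℕ) : Set ℕ).ncard :=
            Set.ncard_le_ncard hset (Finset.finite_toSet _)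
        _ = (((range J).biUnion S).image (fun i => i + 1)).card := Set.ncard_coe_finset _
        _ ≤ ((range J).biUnion S).card := card_image_le
        _ ≤ _ := card_biUnion_le
    exact_mod_cast h1
  have hone : ∀ j ∈ range J, ((S j).card : ℝ) ≤ 8 * H * (128 / (d * I)) ^ (m * 2 ^ (I * (J - 1 - j))) := by
    intro j hj
    rw [hS]
    exact Main_one x H D z L m J I j t W d hd hd1 hI16 hdI hL3 (fun y hy => hwin y I (hy0.trans hy)) hm
      (mem_range.1 hj) hzm hJz hD hDL hlx hxL hWL hHW ht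
  have hq : 128 / (d * I) ≤ 1 / 32 := by
    rw [div_le_div_iff₀ (by positivity) (by norm_num)]
    linarith
  have hq0 : 0 ≤ 128 / (d * I) := by positivity
  have hgeo := geo (128 / (d * I)) hq0 hq m J I hm (by omega)
  have hsum : ∑ j ∈ range J, ((S j).card : ℝ) ≤ H * (1 / 2) ^ m := by
    calc ∑ j ∈ range J, ((S j).card : ℝ) ≤
          ∑ j ∈ range J, 8 * H * (128 / (d * I)) ^ (m * 2 ^ (I * (J - 1 - j))) := Finset.sum_le_sum hone
      _ = 8 * H * ∑ j ∈ range J, (128 / (d * I)) ^ (m * 2 ^ (I * (J - 1 - j))) := by rw [Finset.mul_sum]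
      _ ≤ 8 * H * (2 * (128 / (d * I)) ^ m) := mul_le_mul_of_nonneg_left hgeo (by positivity)
      _ ≤ 8 * H * (2 * (1 / 32) ^ m) := by gcongr
      _ = H * (16 * (1 / 32) ^ m) := by ring
      _ ≤ H * (16 ^ m * (1 / 32) ^ m) := by
        refine mul_le_mul_of_nonneg_left (mul_le_mul_of_nonneg_right ?_ (by positivity)) (Nat.cast_nonneg H)
        calc (16 : ℝ) = 16 ^ 1 := (pow_one _).symm
          _ ≤ 16 ^ m := pow_le_pow_right₀ (by norm_num) hm
      _ = H * (1 / 2) ^ m := by rw [← mul_pow]; norm_num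
  refine hcard.trans (hsum.trans (mul_le_mul_of_nonneg_left ?_ (Nat.cast_nonneg H)))
  have h1 : ((1 : ℝ) / 2) ^ m = Real.exp (-(m * Real.log 2)) := by
    rw [← Real.log_pow, ← Real.log_inv, Real.exp_log (by positivity), one_div, inv_pow]
  rw [h1]
  refine Real.exp_le_exp.2 (neg_le_neg ?_)
  have hQ : 0 ≤ Real.log H / Real.log z := by positivity
  have h2 : Real.log H / (4 * Real.log z) = Real.log H / Real.log z / 4 := by
    rw [div_div, mul_comm 4]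
  rw [h2] at hm2
  have h3 : 1 / (8 * (I : ℝ)) * Real.log H / Real.log z = 1 / (8 * (I : ℝ)) * (Real.log H / Real.log z) := by
    rw [mul_div_assoc]
  rw [h3]
  have h4 : 1 / (8 * (I : ℝ)) ≤ 1 / 8 := by
    rw [div_le_div_iff₀ (by positivity) (by norm_num)]
    linarith
  have h5 : 1 / (8 * (I : ℝ)) * (Real.log H / Real.log z) ≤ 1 / 8 * (Real.log H / Real.log z) :=
    mul_le_mul_of_nonneg_right h4 hQ
  have log2a : 0.6931471803 < Real.log 2 := Real.log_two_gt_d9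
  have hm0 : (0 : ℝ) ≤ m := Nat.cast_nonneg m
  have h6 : (m : ℝ) * 0.5 ≤ m * Real.log 2 := mul_le_mul_of_nonneg_left (by linarith) hm0
  linarith

theorem few_main (d : ℝ) (hd : 0 < d) : ∃ C : ℕ, ∃ c : ℝ, 0 < c ∧ ∃ x₀ : ℕ, ∀ x H D z : ℕ, x₀ ≤ x →
    1 ≤ D → D * H ≤ x → Real.log x ^ C ≤ z → z ^ 2 ≤ H →
    ∀ W : Finset ℕ, (∀ k ∈ W, 1 ≤ k ∧ 2 ^ k ≤ x) → Real.log H ≤ W.card * Real.log (Real.log x) →
    ({j : ℕ | 1 ≤ j ∧ j ≤ H ∧
        d * W.card ≤ AW.fewCount z D (c * Real.log (Real.log z / Real.log (Real.log x))) W (x + D * j)}.ncard : ℝ) ≤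
      H * Real.exp (-(c * Real.log H / Real.log z)) := by
  rcases le_total d 1 with h | h
  · exact few_le d hd h
  · obtain ⟨C, c, hc, x₀, hx⟩ := few_le 1 one_pos le_rfl
    refine ⟨C, c, hc, x₀, fun x H D z h1 h2 h2a h3 h4 W h4a h4b => ?_⟩
    refine le_trans ?_ (hx x H D z h1 h2 h2a h3 h4 W h4a h4b)
    have h5 : (0 : ℝ) ≤ W.card := Nat.cast_nonneg _
    have h6 : {j : ℕ | 1 ≤ j ∧ j ≤ H ∧
        d * W.card ≤ AW.fewCount z D (c * Real.log (Real.log z / Real.log (Real.log x))) W (x + D * j)} ⊆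
        {j : ℕ | 1 ≤ j ∧ j ≤ H ∧
        (1 : ℝ) * W.card ≤ AW.fewCount z D (c * Real.log (Real.log z / Real.log (Real.log x))) W (x + D * j)} := by
      rintro n ⟨a1, a2, a3⟩
      exact ⟨a1, a2, le_trans (mul_le_mul_of_nonneg_right h h5) a3⟩
    have h7 : {j : ℕ | 1 ≤ j ∧ j ≤ H ∧
        (1 : ℝ) * W.card ≤ AW.fewCount z D (c * Real.log (Real.log z / Real.log (Real.log x))) W (x + D * j)}.Finite :=
      (Set.finite_Iic H).subset fun n hn => hn.2.1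
    exact_mod_cast Set.ncard_le_ncard h6 h7

end Pool.Agent.H.MP_c90f74_nt.AW
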