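import Pool.Agent.H.MP_c90f74_nt.AW.Cnt
import Pool.Agent.H.MP_c90f74_nt.AW.Avg

/-!
# AW/KEb: the number of `j` with large `KE`

PROOF. As `MP/KKb`.
-/

set_option autoImplicit false

namespace Pool.Agent.H.MP_c90f74_nt.AW

open Finset SF

open Classical in
theorem kk_bound (x H D L y I m t : ℕ) (W : Finset ℕ) (hW : W ⊆ Icc 1 L) (ρ : ℝ) (hL : 2 ≤ L) (hy : L ^ 3 ≤ y) (hI : 16 ≤ I)
    (hD : 1 ≤ D) (hDL : Nat.log 2 D + 1 ≤ L)
    (hw : (I : ℝ) / 4 ≤ ∑ p ∈ (Ioc y (y ^ (2 ^ I))).filter Nat.Prime, 1 / (p : ℝ))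
    (hm : 1 ≤ m) (hH : (y ^ (2 ^ I)) ^ (2 * m) ≤ H) (hmt : m ≤ t) (htL : t ≤ W.card) (hρ0 : 0 ≤ ρ)
    (hρ : ∀ i : ℕ, i < m → ((W.card : ℝ) - i) ≤ ρ * ((t : ℝ) - i)) :
    (((range H).filter (fun j => t ≤ (KE W y (y ^ (2 ^ I)) L D (x + D * (j + 1))).card)).card : ℝ) ≤
      8 * H * (16 / I * ρ) ^ m := by
  have hB0 : (0 : ℝ) ≤ 8 * H * (16 * m / (m * I)) ^ m := by positivity
  obtain ⟨J, hJ⟩ : ∃ J : Finset ℕ, J = (range H).filter
    (fun j => t ≤ (KE W y (y ^ (2 ^ I)) L D (x + D * (j + 1))).card) := ⟨_, rfl⟩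
  have hf : ∀ j ∈ J, KE W y (y ^ (2 ^ I)) L D (x + D * (j + 1)) ⊆ W ∧
      t ≤ (KE W y (y ^ (2 ^ I)) L D (x + D * (j + 1))).card := by
    intro j hj
    rw [hJ, mem_filter] at hj
    refine ⟨?_, hj.2⟩
    exact KE_sub _ _ _ _ _ _
  have hB : ∀ K ⊆ W, K.card = m →
      ((J.filter (fun j => K ⊆ KE W y (y ^ (2 ^ I)) L D (x + D * (j + 1)))).card : ℝ) ≤
        8 * H * (16 * m / (m * I)) ^ m := by
    intro K hK hKr
    refine le_trans ?_ (cnte x H D L y I m m hL hy hI hD hDL hw hm (by nlinarith) hH W K hW hK hKr)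
    have h1 : (J.filter (fun j => K ⊆ KE W y (y ^ (2 ^ I)) L D (x + D * (j + 1)))).card ≤
        ((range H).filter (fun j => K ⊆ KE W y (y ^ (2 ^ I)) L D (x + D * (j + 1)))).card := by
      refine card_le_card ?_
      intro j hj
      rw [mem_filter] at hj ⊢
      rw [hJ, mem_filter] at hj
      exact ⟨hj.1.1, hj.2⟩
    exact_mod_cast h1
  have h1 := avgW J W m t (fun j => KE W y (y ^ (2 ^ I)) L D (x + D * (j + 1))) hf _ ρ hB0 hB hmt htL hρ hρ0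
  rw [← hJ]
  refine h1.trans (le_of_eq ?_)
  have hm0 : (m : ℝ) ≠ 0 := by
    have : (1 : ℝ) ≤ m := by exact_mod_cast hm
    linarith
  have h2 : 16 * (m : ℝ) / (m * I) = 16 / I := by
    rw [mul_comm 16 (m : ℝ), mul_div_mul_left _ _ hm0]
  rw [h2, mul_pow]
  ring

end Pool.Agent.H.MP_c90f74_nt.AW
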