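import Pool.Agent.H.MP_c90f74_nt.AW.Core
import Pool.Agent.H.MP_c90f74_nt.SF.Win
import Pool.Agent.H.MP_c90f74_nt.SF.Par
import Pool.Agent.H.MP_c90f74_nt.SF.ParA
import Pool.Agent.H.MP_c90f74_nt.SF.ParB

/-!
# AW/Small: the theorem about `smallCount`

PROOF. As `SF/Main`.
-/

set_option autoImplicit false

namespace Pool.Agent.H.MP_c90f74_nt.AW

open Finset SF

private theorem Main_ncard (x H D t s : ℕ) (W : Finset ℕ) (ζ ε : ℝ) (hst : s + t + 2 = W.card)
    (hs : ε * W.card < s + 1) :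
    ({j : ℕ | 1 ≤ j ∧ j ≤ H ∧ (AW.smallCount ζ D W (x + D * j) : ℝ) ≤ ε * W.card}.ncard : ℝ) ≤
      ({j : ℕ | 1 ≤ j ∧ j ≤ H ∧ AW.smallCount ζ D W (x + D * j) + t + 2 ≤ W.card}.ncard : ℝ) := by
  have hfin : {j : ℕ | 1 ≤ j ∧ j ≤ H ∧ AW.smallCount ζ D W (x + D * j) + t + 2 ≤ W.card}.Finite :=
    (Set.finite_Iic H).subset fun n hn => hn.2.1
  have hsub : {j : ℕ | 1 ≤ j ∧ j ≤ H ∧ (AW.smallCount ζ D W (x + D * j) : ℝ) ≤ ε * W.card} ⊆
      {j : ℕ | 1 ≤ j ∧ j ≤ H ∧ AW.smallCount ζ D W (x + D * j) + t + 2 ≤ W.card} := by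
    rintro n ⟨h1, h2, h3⟩
    refine ⟨h1, h2, ?_⟩
    have h4 : (AW.smallCount ζ D W (x + D * n) : ℝ) < (s : ℝ) + 1 := lt_of_le_of_lt h3 hs
    have h5 : AW.smallCount ζ D W (x + D * n) < s + 1 := by exact_mod_cast h4
    omega
  exact_mod_cast Set.ncard_le_ncard hsub hfin

theorem small_half (d : ℝ) (hd : 0 < d) (hd2 : d ≤ 1 / 2) : ∃ C : ℕ, ∃ c : ℝ, 0 < c ∧ ∃ x₀ : ℕ, ∀ x H D : ℕ, x₀ ≤ x →
    Real.log x ^ C ≤ H → 1 ≤ D → D * H ≤ x → ∀ W : Finset ℕ, (∀ k ∈ W, 1 ≤ k ∧ 2 ^ k ≤ x) →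
    ∀ ε : ℝ, Real.log H ≤ ε * W.card * Real.log (Real.log x) → ε ≤ 1 - d →
    ({j : ℕ | 1 ≤ j ∧ j ≤ H ∧ (AW.smallCount (Real.log x ^ C) D W (x + D * j) : ℝ) ≤ ε * W.card}.ncard : ℝ) ≤
      H * ε ^ (c * Real.log H / Real.log (Real.log x)) := by
  obtain ⟨y0, hy02, hwin⟩ := win
  obtain ⟨I, hI⟩ : ∃ I : ℕ, 1400 / d ≤ I := exists_nat_ge _
  have hdI : 1400 ≤ d * I := by
    rw [div_le_iff₀ hd] at hI
    linarith
  have hI32r : (32 : ℝ) ≤ I := by
    have h1 : d * I ≤ 1 / 2 * I := mul_le_mul_of_nonneg_right hd2 (Nat.cast_nonneg I)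
    linarith
  have hI32 : 32 ≤ I := by exact_mod_cast hI32r
  obtain ⟨x₀, hx₀⟩ := par I y0 (4 / d + 8)
  have h2I : (0 : ℝ) < 2 ^ I := by positivity
  refine ⟨24 * 2 ^ I, 1 / (216 * 2 ^ I), by positivity, x₀, ?_⟩
  intro x H D hx hH1 hD hDH W hW1 ε hε1 hε2
  have hH2 : H ≤ x := (Nat.le_mul_of_pos_left H hD).trans hDH
  obtain ⟨L, y, m, hL, hy, hy0, hBL, hBl, hll, hm, hzm, hzx, hzζ, hm1, hm2, hxL, hbL, h24⟩ :=
    hx₀ x H hx hH1 hH2
  have h4d : 0 < 4 / d := by positivity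
  have hll0 : 0 < Real.log (Real.log x) := by linarith
  have hL0 : (0 : ℝ) < L := by linarith
  have hL8 : (8 : ℝ) ≤ L := by linarith
  have hL8n : 8 ≤ L := by exact_mod_cast hL8
  have hlogx : 0 < Real.log x := by
    by_contra h
    have h1 : Real.log x ≤ 0 := not_lt.1 h
    rcases Nat.eq_zero_or_pos x with h2 | h2
    · rw [h2, Nat.cast_zero, Real.log_zero, Real.log_zero] at hll
      linarith
    · have h3 : 0 ≤ Real.log x := Real.log_nonneg (by exact_mod_cast h2)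
      have h4 : Real.log x = 0 := le_antisymm h1 h3
      rw [h4, Real.log_zero] at hll
      linarith
  have hlogH : 24 * Real.log (Real.log x) ≤ Real.log H := by
    rwa [le_div_iff₀ hll0] at h24
  have hlogH0 : 0 < Real.log H := by linarith
  have hHx : Real.log H ≤ Real.log x := by
    have hH0 : (0 : ℝ) < H := by
      rcases Nat.eq_zero_or_pos H with h | h
      · rw [h, Nat.cast_zero, Real.log_zero] at hlogH0
        exact absurd hlogH0 (lt_irrefl _)
      · exact_mod_cast h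
    exact Real.log_le_log hH0 (by exact_mod_cast hH2)
  obtain ⟨w, hw0⟩ : ∃ w : ℕ, w = W.card := ⟨_, rfl⟩
  rw [← hw0] at hε1
  have hwR : (0 : ℝ) ≤ w := Nat.cast_nonneg w
  have hε0 : 0 < ε := by
    by_contra h
    have h1 : ε * w ≤ 0 := mul_nonpos_of_nonpos_of_nonneg (not_lt.1 h) hwR
    have h2 : ε * w * Real.log (Real.log x) ≤ 0 := mul_nonpos_of_nonpos_of_nonneg h1 hll0.le
    linarith
  have hεle : ε ≤ 1 := by linarith
  have hεL : Real.log H / Real.log (Real.log x) ≤ ε * w := by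
    rw [div_le_iff₀ hll0]
    exact hε1
  have hDx : D ≤ x := by
    have h1 : 1 ≤ H := by
      rcases Nat.eq_zero_or_pos H with h | h
      · rw [h, Nat.cast_zero, Real.log_zero] at hlogH0
        exact absurd hlogH0 (lt_irrefl _)
      · exact h
    exact (Nat.le_mul_of_pos_right D h1).trans hDH
  have hDL : Nat.log 2 D + 1 ≤ L := by
    rw [hL]
    exact Nat.succ_le_succ (Nat.log_mono_right hDx)
  have hWL : W ⊆ Icc 1 L := by
    intro k hk
    have h1 := Nat.le_log_of_pow_le (by norm_num) (hW1 k hk).2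
    rw [mem_Icc, hL]
    exact ⟨(hW1 k hk).1, by omega⟩
  have hWx : ∀ k ∈ W, 2 ^ k ≤ x := fun k hk => (hW1 k hk).2
  obtain ⟨s, hs⟩ : ∃ s : ℕ, s = ⌊ε * w⌋₊ := ⟨_, rfl⟩
  have hs1 : (s : ℝ) ≤ ε * w := by
    rw [hs]
    exact Nat.floor_le (mul_nonneg hε0.le hwR)
  have hs2 : ε * w < s + 1 := by
    rw [hs]
    exact Nat.lt_floor_add_one _
  have hyL : L ^ 3 ≤ y := hy.ge
  have hw := hwin y I hy0
  have hζ : Real.log x ^ (24 * 2 ^ I) = Real.log x ^ (24 * 2 ^ I) := rfl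
  have hmle : (m : ℝ) ≤ (Real.log H / Real.log (Real.log x)) / 6 := by
    rw [div_div, mul_comm (Real.log (Real.log x)) 6]
    exact hm2
  have hHR : (0 : ℝ) ≤ H := Nat.cast_nonneg H
  have hq0 : 0 ≤ Real.log H / Real.log (Real.log x) := by positivity
  have hmge : Real.log H / Real.log (Real.log x) ≤ 24 * 2 ^ I * m := by
    have h1 : Real.log H / (24 * 2 ^ I * Real.log (Real.log x)) =
        Real.log H / Real.log (Real.log x) / (24 * 2 ^ I) := by
      rw [div_div, mul_comm (Real.log (Real.log x))]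
    rw [h1, div_le_iff₀ (by positivity)] at hm1
    linarith
  have hexp : 1 / (216 * 2 ^ I) * Real.log H / Real.log (Real.log x) ≤ m / 9 := by
    have h1 : 1 / (216 * 2 ^ I) * Real.log H / Real.log (Real.log x) =
        Real.log H / Real.log (Real.log x) / (216 * 2 ^ I) := by
      field_simp
    rw [h1, div_le_iff₀ (by positivity)]
    calc Real.log H / Real.log (Real.log x) ≤ 24 * 2 ^ I * m := hmge
      _ = _ := by ring
  have hm0 : (0 : ℝ) ≤ m := Nat.cast_nonneg m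
  rcases le_or_gt ε (1 / 7744) with hε | hε
  · -- small `ε`
    obtain ⟨r, t, ρ, hst, hmr, hrt, hρ0, hρ, hfin⟩ := parA I w m s ε hI32 hm hε0 hε
      (by linarith) (by linarith) hs1
    have hcore := core x H D L y I m r t W (Real.log x ^ (24 * 2 ^ I)) ρ hWL hWx (by omega) hyL (by omega) hD hDL hw
      hm hmr hzm hzx hzζ hrt (by omega) hρ0 (by rw [← hw0]; exact hρ)
    refine (Main_ncard x H D t s W _ ε (by rw [← hw0]; exact hst) (by rw [← hw0]; exact hs2)).trans (hcore.trans ?_)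
    have h1 : 8 * (H : ℝ) * (16 * m / (r * I)) ^ m * ρ ^ r =
        H * (8 * (16 * (m : ℝ) / (r * I)) ^ m * ρ ^ r) := by ring
    rw [h1]
    refine mul_le_mul_of_nonneg_left (hfin.trans ?_) hHR
    exact Real.rpow_le_rpow_of_exponent_ge hε0 hεle (by linarith)
  · -- `ε ≤ 1 - d`
    have hI2 : (I : ℝ) ≤ 2 ^ I := by exact_mod_cast (Nat.lt_two_pow_self (n := I)).le
    have hdI2 : 1400 ≤ d * 2 ^ I := hdI.trans (mul_le_mul_of_nonneg_left hI2 hd.le)
    have hεw : ε * w ≤ w := by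
      have := mul_le_mul_of_nonneg_right hεle hwR
      linarith
    have hmd : (m : ℝ) ≤ d * w / 4 := by
      have h1 : (((L : ℝ) ^ 3) ^ (2 ^ I)) ^ (2 * m) ≤ H := by
        rw [hy] at hzm
        exact_mod_cast hzm
      have h2 := Real.log_le_log (by positivity) h1
      rw [Real.log_pow, Real.log_pow, Real.log_pow] at h2
      push_cast at h2
      have h3 : Real.log (Real.log x) ≤ Real.log L := Real.log_le_log hlogx hxL
      have h4 : 6 * (m : ℝ) * 2 ^ I * Real.log (Real.log x) ≤ 6 * (m : ℝ) * 2 ^ I * Real.log L :=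
        mul_le_mul_of_nonneg_left h3 (by positivity)
      have h5 : 6 * (m : ℝ) * 2 ^ I ≤ Real.log H / Real.log (Real.log x) := by
        rw [le_div_iff₀ hll0]
        linarith
      have h6 : 6 * (m : ℝ) * 2 ^ I ≤ w := by linarith
      have h7 : d * (6 * (m : ℝ) * 2 ^ I) ≤ d * w := mul_le_mul_of_nonneg_left h6 hd.le
      have h8 : (m : ℝ) * 1400 ≤ m * (d * 2 ^ I) := mul_le_mul_of_nonneg_left hdI2 hm0
      linarith
    have hdL : 4 ≤ d * w := by
      have h1 : Real.log ((Real.log x) ^ (24 * 2 ^ I)) ≤ Real.log H := Real.log_le_log (by positivity) hH1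
      rw [Real.log_pow] at h1
      push_cast at h1
      have h2 : 24 * 2 ^ I ≤ Real.log H / Real.log (Real.log x) := by
        rw [le_div_iff₀ hll0]
        exact h1
      have h3 : 24 * 2 ^ I ≤ (w : ℝ) := by linarith
      have h4 : d * (24 * 2 ^ I) ≤ d * w := mul_le_mul_of_nonneg_left h3 hd.le
      linarith
    obtain ⟨t, ρ, hst, hmr, hrt, hρ0, hρ, hfin⟩ := parB I w m s ε d hd hd2 hdI hm hdL hε2 hmd hs1
    have hcore := core x H D L y I m m t W (Real.log x ^ (24 * 2 ^ I)) ρ hWL hWx (by omega) hyL (by omega) hD hDL hw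
      hm hmr hzm hzx hzζ hrt (by omega) hρ0 (by rw [← hw0]; exact hρ)
    refine (Main_ncard x H D t s W _ ε (by rw [← hw0]; exact hst) (by rw [← hw0]; exact hs2)).trans (hcore.trans ?_)
    have h1 : 8 * (H : ℝ) * (16 * m / (m * I)) ^ m * ρ ^ m =
        H * (8 * (16 * (m : ℝ) / (m * I)) ^ m * ρ ^ m) := by ring
    rw [h1]
    refine mul_le_mul_of_nonneg_left (hfin.trans ?_) hHR
    rw [Real.rpow_def_of_pos hε0]
    refine Real.exp_le_exp.2 ?_
    have h2 : -9 ≤ Real.log ε := by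
      have h3 : Real.log (1 / 7744) ≤ Real.log ε := Real.log_le_log (by norm_num) hε.le
      have h4 : Real.log 7744 ≤ 9 := by
        rw [Real.log_le_iff_le_exp (by norm_num)]
        have h5 : (2.7182818283 : ℝ) < Real.exp 1 := Real.exp_one_gt_d9
        have h6 : Real.exp 9 = Real.exp 1 ^ 9 := by
          rw [← Real.exp_nat_mul]
          norm_num
        rw [h6]
        calc (7744 : ℝ) ≤ 2.7182818283 ^ 9 := by norm_num
          _ ≤ Real.exp 1 ^ 9 := pow_le_pow_left₀ (by norm_num) h5.le 9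
      rw [one_div, Real.log_inv] at h3
      linarith
    have h3 : 0 ≤ 1 / (216 * 2 ^ I) * Real.log H / Real.log (Real.log x) := by positivity
    nlinarith [mul_le_mul_of_nonneg_right h2 h3]

theorem small_main (d : ℝ) (hd : 0 < d) : ∃ C : ℕ, ∃ c : ℝ, 0 < c ∧ ∃ x₀ : ℕ, ∀ x H D : ℕ, x₀ ≤ x →
    Real.log x ^ C ≤ H → 1 ≤ D → D * H ≤ x → ∀ W : Finset ℕ, (∀ k ∈ W, 1 ≤ k ∧ 2 ^ k ≤ x) →
    ∀ ε : ℝ, Real.log H ≤ ε * W.card * Real.log (Real.log x) → ε ≤ 1 - d →
    ({j : ℕ | 1 ≤ j ∧ j ≤ H ∧ (AW.smallCount (Real.log x ^ C) D W (x + D * j) : ℝ) ≤ ε * W.card}.ncard : ℝ) ≤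
      H * ε ^ (c * Real.log H / Real.log (Real.log x)) := by
  rcases le_total d (1 / 2) with h | h
  · exact small_half d hd h
  · obtain ⟨C, c, hc, x₀, hx⟩ := small_half (1 / 2) (by norm_num) le_rfl
    refine ⟨C, c, hc, x₀, fun x H D h1 h2 h3 h3a W h3b ε h4 h5 => hx x H D h1 h2 h3 h3a W h3b ε h4 (by linarith)⟩

end Pool.Agent.H.MP_c90f74_nt.AW
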